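import Pool.Agent.H93.KR.Aff

/-!
# The Knörr-Robinson conjecture for affine primitive groups
-/

set_option autoImplicit false

noncomputable section

namespace Pool.Agent.Results.MP_b6945b_al.AffineReduction

open Pool.Agent.Y63.KR (KRC)

/-- `X` is *reduced* (for `p`): every abelian normal subgroup of `X` is central, cyclic and of order
prime to `p`, and `X` has no proper normal subgroup whose index is a power of `p`. -/
structure Reduced (p : ℕ) (X : Type) [Group X] : Prop where
  abelian : ∀ A : Subgroup X, A.Normal → (∀ a ∈ A, ∀ b ∈ A, a * b = b * a) →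
    A ≤ Subgroup.center X ∧ IsCyclic A ∧ ¬ p ∣ Nat.card A
  index : ∀ K : Subgroup X, K.Normal → (∃ k, K.index = p ^ k) → K = ⊤

/-- `φ` is a faithful irreducible action of the finite group `X` on a nontrivial elementary abelian
`l`-group `N`, where `l` is a prime larger than `p` and larger than `|X|`; in other words,
`N ⋊[φ] X` is an affine primitive permutation group of degree `|N|` with point stabiliser `X`. -/
structure Affine (p : ℕ) {N X : Type} [CommGroup N] [Group X] (φ : X →* MulAut N) : Prop where
  exponent : ∃ l : ℕ, l.Prime ∧ p < l ∧ Nat.card X < l ∧ ∀ n : N, n ^ l = 1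
  nontrivial : Nontrivial N
  faithful : Function.Injective φ
  irreducible : ∀ M : Subgroup N, (∀ x, ∀ m ∈ M, φ x m ∈ M) → M = ⊥ ∨ M = ⊤

/-- **Reduction of the Knörr-Robinson conjecture to affine primitive groups.** For a prime `p` the
following are equivalent:

1. the conjecture `KRC_p` holds for all finite groups;
2. `KRC_p` holds for all affine primitive groups `N ⋊ X` with `X` reduced;
3. for each reduced group `X` the conjecture holds for at least one affine primitive group
  `N ⋊ X`. -/
theorem result (p : ℕ) [Fact p.Prime] : List.TFAE [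
    ∀ (G : Type) [Group G] [Finite G], KRC p G,
    ∀ (N X : Type) [CommGroup N] [Finite N] [Group X] [Finite X] (φ : X →* MulAut N),
      Reduced p X → Affine p φ → KRC p (N ⋊[φ] X),
    ∀ (X : Type) [Group X] [Finite X], Reduced p X →
      ∃ (N : Type) (_ : CommGroup N) (_ : Finite N) (φ : X →* MulAut N),
        Affine p φ ∧ KRC p (N ⋊[φ] X)] := by
  tfae_have 1 → 2 := by
    intro h N X _ _ _ _ φ _ _
    have : Finite (N ⋊[φ] X) := Finite.of_equiv _ SemidirectProduct.equivProd.symm
    exact h _
  tfae_have 2 → 3 := by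
    intro h X _ _ hX
    obtain ⟨l, N, i1, i2, φ, h1, h2, h3, h4⟩ := Pool.Agent.H93.KR.exists_aff_large (p := p)
      (G := X) fun A h1 h2 => ⟨(hX.abelian A h1 h2).1, (hX.abelian A h1 h2).2.1⟩
    have h5 : Affine p φ := ⟨⟨l, h1, h2, h3, h4.exp⟩, h4.nontriv, h4.faithful, h4.irred⟩
    exact ⟨N, i1, i2, φ, h5, h N X φ hX h5⟩
  tfae_have 3 → 1 := by
    intro h G _ _
    refine Pool.Agent.H93.KR.affine (p := p) ?_ (Nat.card G) G rfl
    intro X _ _ h1 h2
    obtain ⟨N, i1, i2, φ, ⟨⟨l, h3, h4, h5, h6⟩, h7, h8, h9⟩, h10⟩ := h X ⟨h1, h2⟩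
    exact ⟨l, N, i1, i2, φ, h3, h4, ⟨h6, h7, h8, h9⟩, h10⟩
  tfae_finish

end Pool.Agent.Results.MP_b6945b_al.AffineReduction
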