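import Pool.Agent.H93.KR.Eqv

/-!
# The equivariant form of the Knörr-Robinson conjecture
-/

set_option autoImplicit false

noncomputable section

namespace Pool.Agent.Results.MP_b6945b_al.EquivariantForm

open Pool.Agent.Y63.KR (KRC eulerChar fixedPoset)
open Pool.Agent.H93.KR (invDZ twSum)

/-- **The equivariant form of the Knörr-Robinson conjecture.** Let `G` be a normal subgroup of the
finite group `Γ` such that `Γ/G` is cyclic of order prime to `p`. Then `KRC_p` holds for all groups
between `G` and `Γ` if and only if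

`1/|G| ∑ -χ̃(S^⟨x, y⟩) = #{χ ∈ Irr(G) of p-defect zero and γ-invariant}`

for all `γ ∈ Γ`, the sum over the commuting pairs `(x, y)` with `x ∈ G` and `y ∈ Gγ`; here `S` is the
poset of nontrivial `p`-subgroups. (For `γ = 1` this is the conjecture for `G`.) -/
theorem result (p : ℕ) [Fact p.Prime] (Γ : Type) [Group Γ] [Finite Γ] (G : Subgroup Γ) [G.Normal]
    (hc : IsCyclic (Γ ⧸ G)) (hp : ¬ p ∣ G.index) :
    (∀ Δ : Subgroup Γ, G ≤ Δ → KRC p Δ) ↔
      ∀ γ : Γ, twSum p G γ = Nat.card G * invDZ p G γ :=
  Pool.Agent.H93.KR.equivariant (QuotientGroup.mk' G) (QuotientGroup.mk'_surjective G) hp G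
    (QuotientGroup.ker_mk' G)

end Pool.Agent.Results.MP_b6945b_al.EquivariantForm
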