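import Pool.Agent.H93.WR.Res

/-!
# The residues of the error term of the Knörr-Robinson conjecture
-/

set_option autoImplicit false

noncomputable section

namespace Pool.Agent.Results.MP_b6945b_al.ResidueClasses

open Pool.Agent.Y63.KR (chi2 KRC)
open Pool.Agent.Y63.AWC (numDefectZero)
open Pool.Agent.H93.WR (Wrc Rz Cls)

/-- the error term `D_p(G) = χ₂(S_G^{p+*}, G) - (k(G) - z_p(G))` of the Knörr-Robinson conjecture;
`KRC p G` says that it vanishes. -/
def err (p : ℕ) (G : Type) [Group G] : ℚ :=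
  chi2 p G - ((Nat.card (ConjClasses G) : ℚ) - (numDefectZero p G : ℚ))

/-- The class `X` of groups is closed under direct products with finite cyclic groups of order prime
to `p` and under `G ↦ G ≀ C_l`, the wreath product `G^l ⋊ C_l` with the regular cyclic group of
order `l`. -/
structure Closed (p l : ℕ) (X : ∀ (G : Type) [Group G], Prop) : Prop where
  prod : ∀ (G : Type) [Group G] [Finite G] (n : ℕ), 0 < n → ¬ p ∣ n → X G →
    X (G × Multiplicative (ZMod n))
  wreath : ∀ (G : Type) [Group G] [Finite G], X G → X (Wrc l G)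

/-- **One missed residue class suffices.** Let `p` and `l` be primes (`l = p` is allowed) and let `X`
be a class of groups with `Closed p l X`, for example the class of all groups.

1. If `a` is an integer not divisible by `l^k`, then `KRC_p` holds for all finite groups in `X` if
  and only if no finite group `G` in `X` has `D_p(G) ≡ a` modulo `l^k`.
2. If `m` is divisible by `l`, then `KRC_p` holds for all finite groups in `X` if and only if
  `D_p(G) ≡ 0` modulo `m` for all of them. -/
theorem result (p l : ℕ) [Fact p.Prime] (hl : l.Prime) (X : ∀ (G : Type) [Group G], Prop)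
    (hX : Closed p l X) :
    (∀ (k : ℕ) (a : ℤ), ¬ (l : ℤ) ^ k ∣ a →
      ((∀ (G : Type) [Group G] [Finite G], X G → KRC p G) ↔
        ∀ (G : Type) [Group G] [Finite G], X G → ¬ ∃ n : ℤ, err p G = a + (l : ℚ) ^ k * n)) ∧
    (∀ m : ℕ, l ∣ m →
      ((∀ (G : Type) [Group G] [Finite G], X G → KRC p G) ↔
        ∀ (G : Type) [Group G] [Finite G], X G → ∃ n : ℤ, err p G = m * n)) := by
  have hX' : Cls p l X := ⟨hX.prod, hX.wreath⟩
  have h0 : ∀ (G : Type) [Group G] [Finite G], KRC p G ↔ err p G = 0 := by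
    intro G _ _
    unfold KRC err
    rw [sub_eq_zero]
  have key : ∀ (G : Type) [Group G] [Finite G], X G → ¬ KRC p G → ∀ (k : ℕ) (a : ℤ),
      ∃ (H : Type) (_ : Group H) (_ : Finite H), X H ∧ ∃ n : ℤ, err p H = a + (l : ℚ) ^ k * n := by
    intro G _ _ hG hK k a
    have := Fintype.ofFinite G
    have h1 : (numDefectZero p G : ℤ) ≠ Pool.Agent.Q90.WR.altK p G := by
      intro h
      apply hK
      rw [h0]
      unfold err
      rw [Pool.Agent.H93.WR.err_eq, h, sub_self, Int.cast_zero]
    obtain ⟨z', A', m, ⟨H, i1, i2, h2, rfl, rfl⟩, h3⟩ := Pool.Agent.H93.WR.residues hX' hl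
      (⟨G, inferInstance, inferInstance, hG, rfl, rfl⟩ : Rz X p (numDefectZero p G)
        (Pool.Agent.Q90.WR.altK p G)) h1 k a
    refine ⟨H, i1, inferInstance, h2, m, ?_⟩
    unfold err
    rw [Pool.Agent.H93.WR.err_eq, h3]
    push_cast
    rfl
  refine ⟨fun k a ha => ⟨?_, ?_⟩, fun m hm => ⟨?_, ?_⟩⟩
  · rintro h G _ _ hG ⟨n, hn⟩
    rw [(h0 G).mp (h G hG)] at hn
    apply ha
    refine ⟨-n, ?_⟩
    have h1 : ((0 : ℤ) : ℚ) = ((a + (l : ℤ) ^ k * n : ℤ) : ℚ) := by
      push_cast
      exact hn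
    have h2 := Int.cast_injective (α := ℚ) h1
    linear_combination -h2
  · intro h G _ _ hG
    by_contra hK
    obtain ⟨H, _, _, h1, h2⟩ := key G hG hK k a
    exact h H h1 h2
  · intro h G _ _ hG
    exact ⟨0, by rw [(h0 G).mp (h G hG)]; simp⟩
  · intro h G _ _ hG
    by_contra hK
    obtain ⟨H, _, _, h1, n, hn⟩ := key G hG hK 1 1
    obtain ⟨n', hn'⟩ := h H h1
    obtain ⟨c, rfl⟩ := hm
    rw [hn'] at hn
    have h1 : (((l : ℤ) * c * n' : ℤ) : ℚ) = ((1 + (l : ℤ) ^ 1 * n : ℤ) : ℚ) := by
      push_cast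
      push_cast at hn
      exact hn
    have h2 := Int.cast_injective (α := ℚ) h1
    have h3 : (l : ℤ) ∣ 1 := ⟨c * n' - n, by linear_combination -h2⟩
    exact (Nat.prime_iff_prime_int.mp hl).not_isUnit (isUnit_of_dvd_one h3)

end Pool.Agent.Results.MP_b6945b_al.ResidueClasses
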