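import Pool.Agent.H93.WR.Gro

/-!
# The Knörr-Robinson conjecture and wreath products with groups of prime order
-/

set_option autoImplicit false

noncomputable section

namespace Pool.Agent.Results.MP_b6945b_al.WreathProducts

open Pool.Agent.Y63.KR (chi2 KRC)
open Pool.Agent.Y63.AWC (numDefectZero)
open Pool.Agent.H93.WR (Wrc Clp)
open Pool.Agent.Q90.WR (altK)

/-- `A_p(G) = k(G) - χ₂(S_G^{p+*}, G)`, minus the reduced second equivariant Euler characteristic;
`KRC p G` says that `A_p(G) = z_p(G)`. -/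
def negChi (p : ℕ) (G : Type) [Group G] : ℚ := (Nat.card (ConjClasses G) : ℚ) - chi2 p G

/-- The class `X` of groups is closed under direct powers `G ↦ G^n`, `n > 0`, and under
`G ↦ G ≀ C_l`, the wreath product `G^l ⋊ C_l` with the regular cyclic group of order `l`. -/
structure Closed (l : ℕ) (X : ∀ (G : Type) [Group G], Prop) : Prop where
  pow : ∀ (G : Type) [Group G] [Finite G] (n : ℕ), 0 < n → X G → X (Fin n → G)
  wreath : ∀ (G : Type) [Group G] [Finite G], X G → X (Wrc l G)

/-- **Wreath products with groups of prime order.** Let `p` and `l` be primes.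

1. For `l ≠ p` both `x = z_p` and `x = A_p` satisfy `l x(G ≀ C_l) = x(G)^l + (l² - 1) x(G)`; for
  `l = p` they satisfy `p x(G ≀ C_p) = x(G)^p - x(G)`.
2. `KRC_p(G)` implies `KRC_p(G ≀ C_l)`; for odd `l ≠ p` the two are equivalent.
3. Let `l ≠ p` be odd and let `X` be a class of groups with `Closed l X`. If
  `z_p(G) - A_p(G) = O(|G|^ε)` for the finite groups `G` in `X`, for each `ε > 0`, then `KRC_p` holds
  for all finite groups in `X` (and conversely). -/
theorem result (p l : ℕ) [Fact p.Prime] (hl : l.Prime) :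
    (∀ (G : Type) [Group G] [Finite G],
      (l ≠ p →
        (l : ℚ) * numDefectZero p (Wrc l G) =
          (numDefectZero p G : ℚ) ^ l + ((l : ℚ) ^ 2 - 1) * numDefectZero p G ∧
        (l : ℚ) * negChi p (Wrc l G) = negChi p G ^ l + ((l : ℚ) ^ 2 - 1) * negChi p G) ∧
      (l = p →
        (l : ℚ) * numDefectZero p (Wrc l G) = (numDefectZero p G : ℚ) ^ l - numDefectZero p G ∧
        (l : ℚ) * negChi p (Wrc l G) = negChi p G ^ l - negChi p G)) ∧
    (∀ (G : Type) [Group G] [Finite G], KRC p G → KRC p (Wrc l G)) ∧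
    (l ≠ p → l ≠ 2 → ∀ (G : Type) [Group G] [Finite G], KRC p (Wrc l G) → KRC p G) ∧
    (l ≠ p → l ≠ 2 → ∀ X : ∀ (G : Type) [Group G], Prop, Closed l X →
      ((∀ (G : Type) [Group G] [Finite G], X G → KRC p G) ↔
        ∀ ε : ℝ, 0 < ε → ∃ C : ℝ, ∀ (G : Type) [Group G] [Finite G], X G →
          |(((numDefectZero p G : ℚ) - negChi p G : ℚ) : ℝ)| ≤ C * (Nat.card G : ℝ) ^ ε)) := by
  have : Fact l.Prime := ⟨hl⟩
  have h0 : ∀ (G : Type) [Group G] [Finite G], negChi p G = (altK p G : ℚ) := by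
    intro G _ _
    have h := Pool.Agent.H93.WR.err_eq (p := p) G
    unfold negChi
    push_cast at h
    linarith
  have hK : ∀ (G : Type) [Group G] [Finite G], KRC p G ↔ (numDefectZero p G : ℤ) = altK p G := by
    intro G _ _
    rw [Pool.Agent.Q90.WR.krc_altK, eq_comm]
  have hl0 : (l : ℤ) ≠ 0 := by exact_mod_cast hl.ne_zero
  refine ⟨?_, ?_, ?_, ?_⟩
  · intro G _ _
    have := Fintype.ofFinite G
    have : Finite (Wrc l G) := Pool.Agent.H93.WR.finite_wrc
    refine ⟨fun hlp => ?_, fun hlp => ?_⟩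
    · rw [h0 G, h0 (Wrc l G)]
      exact ⟨by exact_mod_cast Pool.Agent.H93.WR.num_wrc (G := G) (Ne.symm hlp),
        by exact_mod_cast Pool.Agent.H93.WR.altK_wrc (G := G) (Ne.symm hlp)⟩
    · subst hlp
      rw [h0 G, h0 (Wrc l G)]
      exact ⟨by exact_mod_cast Pool.Agent.H93.WR.num_wrc_self (q := l) (G := G),
        by exact_mod_cast Pool.Agent.H93.WR.altK_wrc_self (q := l) (G := G)⟩
  · intro G _ _ h
    have := Fintype.ofFinite G
    have : Finite (Wrc l G) := Pool.Agent.H93.WR.finite_wrc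
    rw [hK] at h ⊢
    apply mul_left_cancel₀ hl0
    by_cases hlp : l = p
    · subst hlp
      rw [Pool.Agent.H93.WR.num_wrc_self, Pool.Agent.H93.WR.altK_wrc_self, h]
    · rw [Pool.Agent.H93.WR.num_wrc (Ne.symm hlp), Pool.Agent.H93.WR.altK_wrc (Ne.symm hlp), h]
  · intro hlp hl2 G _ _ h
    have := Fintype.ofFinite G
    have : Finite (Wrc l G) := Pool.Agent.H93.WR.finite_wrc
    rw [hK] at h ⊢
    have h1 := Pool.Agent.H93.WR.num_wrc (G := G) (Ne.symm hlp)
    rw [h, Pool.Agent.H93.WR.altK_wrc (Ne.symm hlp)] at h1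
    have hodd : Odd l := hl.odd_of_ne_two hl2
    have hmono : StrictMono fun x : ℤ => x ^ l + ((l : ℤ) ^ 2 - 1) * x := by
      have h2 : (0 : ℤ) < (l : ℤ) ^ 2 - 1 := by
        have h3 : (2 : ℤ) ≤ l := by exact_mod_cast hl.two_le
        nlinarith
      intro x y hxy
      have h4 := hodd.strictMono_pow hxy
      have h5 := mul_lt_mul_of_pos_left hxy h2
      exact add_lt_add h4 h5
    exact (hmono.injective h1).symm
  · intro hlp hl2 X hX
    constructor
    · intro h ε _
      refine ⟨0, fun G _ _ hG => ?_⟩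
      have h1 := (hK G).mp (h G hG)
      rw [h0 G]
      have h2 : ((numDefectZero p G : ℚ) - (altK p G : ℚ)) = 0 := by
        rw [← h1]
        push_cast
        ring
      rw [h2]
      simp
    · intro h G _ _ hG
      by_contra hc
      rw [hK] at hc
      obtain ⟨N, hN, hg⟩ := Pool.Agent.H93.WR.growth (q := l) (Ne.symm hlp) hl2
        (⟨hX.pow, hX.wreath⟩ : Clp l X) G hG hc
      have hN1 : (1 : ℝ) < N := by exact_mod_cast hN
      have hε : 0 < Real.log 2 / (2 * Real.log N) :=
        div_pos (Real.log_pos (by norm_num)) (mul_pos (by norm_num) (Real.log_pos hN1))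
      obtain ⟨C, hC⟩ := h _ hε
      obtain ⟨j, hj⟩ := Pool.Agent.H93.WR.no_bound hN C
      obtain ⟨H, _, _, h1, h2, h3⟩ := hg j
      have h4 := hC H h1
      rw [h2, h0 H] at h4
      have h5 : ((2 : ℝ) ^ (2 * j)) ≤ |(((numDefectZero p H : ℚ) - (altK p H : ℚ) : ℚ) : ℝ)| := by
        have h6 : (((2 : ℤ) ^ (2 * j) : ℤ) : ℝ) ≤
            ((|(numDefectZero p H : ℤ) - altK p H| : ℤ) : ℝ) := by exact_mod_cast h3
        push_cast at h6 ⊢
        exact h6
      exact absurd (h5.trans h4) (not_le.mpr hj)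

end Pool.Agent.Results.MP_b6945b_al.WreathProducts
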